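import Pool.Agent.H439.Broom

/-! # The constant `γ_{b,c}` of connected bipartite Turán numbers of trees is at most `1/2`

The tree is the broom `B_t`: a centre with `t` leaves and a tail of `t` further vertices
(`2t + 1` vertices in all). For all large `n` every connected `B_t`-free subgraph of `K_{n,n}` has at
most `t n` edges.

* If no vertex has degree `≥ 2t`, some vertex is at distance at least `t` from any given vertex `u`;
  a geodesic from `u` meets the neighbourhood of `u` only once, so a vertex of degree `> t` gives a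
  broom.
* If `v` has degree `≥ 2t`, all paths from `v` have at most `t` vertices. Let `λ(u)` be the largest
  length of a path from `v` to `u`. The neighbours `w` of `u` with `λ(w) ≤ λ(u)` lie on a longest
  path from `v` to `u`, and by parity there are at most `t / 2` of them.
-/

set_option autoImplicit false

open scoped ENNReal

namespace Pool.Agent.Results.MP_95bdb0_co.HalfBound

/-- `G` has no subgraph isomorphic to `T`. -/
def Free {m : ℕ} {V : Type} (T : SimpleGraph (Fin m)) (G : SimpleGraph V) : Prop :=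
  ¬ ∃ f : Fin m → V, Function.Injective f ∧ ∀ i j, T.Adj i j → G.Adj (f i) (f j)

/-- `ex_{b,c}(n, T)`: the maximum number of edges of a connected `T`-free spanning subgraph of
`K_{n,n}`. -/
noncomputable def exBC {m : ℕ} (n : ℕ) (T : SimpleGraph (Fin m)) : ℕ :=
  sSup {k | ∃ G : SimpleGraph (Fin n ⊕ Fin n), G ≤ completeBipartiteGraph (Fin n) (Fin n) ∧
    G.Connected ∧ Free T G ∧ G.edgeSet.ncard = k}

/-- `γ_{b,c,T} = limsup ex_{b,c}(n, T) / ((|T| - 2) n)`. -/
noncomputable def gammaT {m : ℕ} (T : SimpleGraph (Fin m)) : ℝ≥0∞ :=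
  Filter.limsup (fun n : ℕ => (exBC n T : ℝ≥0∞) / (((m - 2 : ℕ) : ℝ≥0∞) * (n : ℝ≥0∞)))
    Filter.atTop

/-- `inf_{T ∈ 𝓣_k} γ_{b,c,T}`, `𝓣_k` being the set of trees with at least `k` vertices. -/
noncomputable def infGamma (k : ℕ) : ℝ≥0∞ :=
  ⨅ (m : ℕ) (_ : k ≤ m) (T : SimpleGraph (Fin m)) (_ : T.IsTree), gammaT T

/-- `infGamma` converges (it is nondecreasing) to a limit `γ_{b,c}`, and `γ_{b,c} ≤ 1/2`. More
precisely, for the brooms `B_t` one has `ex_{b,c}(n, B_t) ≤ t n` for all `n` with
`(2t)^t < 2n`. -/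
theorem result :
    (∀ t : ℕ, 1 ≤ t → (Pool.Agent.H439.Broom.broom t).IsTree ∧
      ∀ n : ℕ, (2 * t) ^ t < 2 * n → exBC n (Pool.Agent.H439.Broom.broom t) ≤ t * n) ∧
    ∃ γ : ℝ≥0∞, Filter.Tendsto infGamma Filter.atTop (nhds γ) ∧ γ ≤ 1 / 2 := by
  have h1 : ∀ t : ℕ, 1 ≤ t → (Pool.Agent.H439.Broom.broom t).IsTree ∧
      ∀ n : ℕ, (2 * t) ^ t < 2 * n → exBC n (Pool.Agent.H439.Broom.broom t) ≤ t * n := by
    intro t ht
    refine ⟨Pool.Agent.H439.Broom.broom_isTree t, fun n hn => ?_⟩
    apply csSup_le'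
    rintro k ⟨G, hG, hc, hf, rfl⟩
    exact Pool.Agent.H439.Broom.main t n ht hn G hG hc hf
  refine ⟨h1, ?_⟩
  have hmono : Monotone infGamma := by
    intro k l hkl
    unfold infGamma
    refine le_iInf fun m => le_iInf fun hm => ?_
    exact iInf_le_of_le m (iInf_le_of_le (hkl.trans hm) le_rfl)
  refine ⟨⨆ k, infGamma k, tendsto_atTop_iSup hmono, ?_⟩
  refine iSup_le fun k => ?_
  have hb : ∀ t : ℕ, 1 ≤ t → gammaT (Pool.Agent.H439.Broom.broom t) ≤
      ENNReal.ofReal ((t : ℝ) / (2 * t - 1)) := by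
    intro t ht
    have hev : ∀ᶠ n : ℕ in Filter.atTop, (exBC n (Pool.Agent.H439.Broom.broom t) : ℝ≥0∞) /
        (((2 * t + 1 - 2 : ℕ) : ℝ≥0∞) * (n : ℝ≥0∞)) ≤ ENNReal.ofReal ((t : ℝ) / (2 * t - 1)) := by
      filter_upwards [Filter.eventually_gt_atTop ((2 * t) ^ t)] with n hn
      have h2 := (h1 t ht).2 n (by omega)
      have hn0 : 0 < n := by omega
      have hpos : (0 : ℝ) < 2 * t - 1 := by
        have : (1 : ℝ) ≤ t := by exact_mod_cast ht
        linarith
      have hcast : ((2 * t + 1 - 2 : ℕ) : ℝ) = 2 * t - 1 := by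
        have : 2 * t + 1 - 2 = 2 * t - 1 := by omega
        rw [this, Nat.cast_sub (by omega)]
        push_cast
        ring
      calc (exBC n (Pool.Agent.H439.Broom.broom t) : ℝ≥0∞) /
            (((2 * t + 1 - 2 : ℕ) : ℝ≥0∞) * (n : ℝ≥0∞))
          ≤ ((t * n : ℕ) : ℝ≥0∞) / (((2 * t + 1 - 2 : ℕ) : ℝ≥0∞) * (n : ℝ≥0∞)) := by
            apply ENNReal.div_le_div_right
            exact_mod_cast h2
        _ = ENNReal.ofReal ((t * n : ℕ) : ℝ) /
              ENNReal.ofReal (((2 * t + 1 - 2 : ℕ) : ℝ) * (n : ℝ)) := by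
            rw [ENNReal.ofReal_natCast, ENNReal.ofReal_mul (by positivity),
              ENNReal.ofReal_natCast, ENNReal.ofReal_natCast]
        _ = ENNReal.ofReal (((t * n : ℕ) : ℝ) / (((2 * t + 1 - 2 : ℕ) : ℝ) * (n : ℝ))) := by
            rw [ENNReal.ofReal_div_of_pos]
            rw [hcast]
            have : (0 : ℝ) < n := by exact_mod_cast hn0
            positivity
        _ = ENNReal.ofReal ((t : ℝ) / (2 * t - 1)) := by
            congr 1
            rw [hcast]
            have : (0 : ℝ) < n := by exact_mod_cast hn0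
            push_cast
            field_simp
    exact Filter.limsup_le_of_le (by isBoundedDefault) hev
  have hk : ∀ t : ℕ, max k 1 ≤ t → infGamma k ≤ ENNReal.ofReal ((t : ℝ) / (2 * t - 1)) := by
    intro t ht
    have ht1 : 1 ≤ t := le_trans (le_max_right _ _) ht
    have htk : k ≤ t := le_trans (le_max_left _ _) ht
    refine le_trans ?_ (hb t ht1)
    unfold infGamma
    exact iInf_le_of_le (2 * t + 1) (iInf_le_of_le (by omega)
      (iInf_le_of_le (Pool.Agent.H439.Broom.broom t)
        (iInf_le_of_le (h1 t ht1).1 le_rfl)))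
  have hlim : Filter.Tendsto (fun t : ℕ => ENNReal.ofReal ((t : ℝ) / (2 * t - 1))) Filter.atTop
      (nhds (ENNReal.ofReal (1 / 2))) := by
    apply ENNReal.tendsto_ofReal
    have h3 : Filter.Tendsto (fun t : ℕ => (1 : ℝ) / (2 - 1 / (t : ℝ))) Filter.atTop
        (nhds (1 / (2 - 0))) := by
      apply Filter.Tendsto.div tendsto_const_nhds _ (by norm_num)
      exact tendsto_const_nhds.sub tendsto_one_div_atTop_nhds_zero_nat
    rw [sub_zero] at h3
    refine h3.congr' ?_
    filter_upwards [Filter.eventually_gt_atTop 0] with t ht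
    have ht' : (0 : ℝ) < t := by exact_mod_cast ht
    have ht1 : (1 : ℝ) ≤ t := by exact_mod_cast ht
    have : (2 : ℝ) * t - 1 ≠ 0 := by
      have : (0 : ℝ) < 2 * t - 1 := by linarith
      exact this.ne'
    have h2 : (2 : ℝ) - 1 / (t : ℝ) ≠ 0 := by
      have : 1 / (t : ℝ) ≤ 1 := by rw [div_le_one ht']; exact ht1
      have : (0 : ℝ) < 2 - 1 / (t : ℝ) := by linarith
      exact this.ne'
    field_simp
  have hfin : infGamma k ≤ ENNReal.ofReal (1 / 2) := by
    refine ge_of_tendsto hlim ?_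
    filter_upwards [Filter.eventually_ge_atTop (max k 1)] with t ht
    exact hk t ht
  refine hfin.trans (le_of_eq ?_)
  rw [ENNReal.ofReal_div_of_pos (by norm_num)]
  simp

end Pool.Agent.Results.MP_95bdb0_co.HalfBound
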