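import Mathlib
import Pool.Agent.H223R3.Tree.Pack

set_option autoImplicit false

/-!
# Connected bipartite Turán numbers of trees: `γ_{b,c} ≤ γ_{b↔c}`, without the Erdős–Sós hypothesis

The Erdős–Sós theorem of the starting files gives `ex_b(n, T) ≤ (|T| - 2) n` for every tree `T`,
half of the greedy bound.  Hence `ex_{b,c}(n, T) / ((|T| - 2) n) ≤ ex_{b,c}(n, T) / ex_b(n, T)` for all
`n`, `γ_{b,c,T} ≤ γ_{b↔c,T}` for every tree `T`, and `γ_{b,c} ≤ γ_{b↔c}`.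
-/

namespace Pool.Agent.Results.MP_95bdb0_co.RatioAtLeastConnected

open Filter Topology

/-- `G` has no subgraph isomorphic to `T` -/
def TFree {V W : Type} (T : SimpleGraph W) (G : SimpleGraph V) : Prop :=
  ¬ ∃ f : W → V, Function.Injective f ∧ ∀ a b, T.Adj a b → G.Adj (f a) (f b)

/-- `ex_b(n, T)`: the largest number of edges of a `T`-free subgraph of `K_{n,n}` -/
noncomputable def exb (t : ℕ) (T : SimpleGraph (Fin t)) (n : ℕ) : ℕ :=
  sSup {m | ∃ G : SimpleGraph (Fin n ⊕ Fin n), G ≤ completeBipartiteGraph (Fin n) (Fin n) ∧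
    TFree T G ∧ G.edgeSet.ncard = m}

/-- `ex_{b,c}(n, T)`: the largest number of edges of a connected `T`-free spanning subgraph of
`K_{n,n}` (`0` if there is none) -/
noncomputable def exbc (t : ℕ) (T : SimpleGraph (Fin t)) (n : ℕ) : ℕ :=
  sSup {m | ∃ G : SimpleGraph (Fin n ⊕ Fin n), G ≤ completeBipartiteGraph (Fin n) (Fin n) ∧
    G.Connected ∧ TFree T G ∧ G.edgeSet.ncard = m}

/-- `γ_{b,c,T}` -/
noncomputable def gbc (t : ℕ) (T : SimpleGraph (Fin t)) : ℝ :=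
  limsup (fun n : ℕ => (exbc t T n : ℝ) / (((t : ℝ) - 2) * n)) atTop

/-- `γ_{b↔c,T}` -/
noncomputable def gratio (t : ℕ) (T : SimpleGraph (Fin t)) : ℝ :=
  limsup (fun n : ℕ => (exbc t T n : ℝ) / (exb t T n : ℝ)) atTop

/-- the infimum of `γ_T` over the trees `T` with at least `k` vertices -/
noncomputable def infTrees (γ : (t : ℕ) → SimpleGraph (Fin t) → ℝ) (k : ℕ) : ℝ :=
  sInf {x | ∃ t : ℕ, k ≤ t ∧ ∃ T : SimpleGraph (Fin t), T.IsTree ∧ x = γ t T}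

lemma finite_edges {n : ℕ} (G : SimpleGraph (Fin n ⊕ Fin n)) : G.edgeSet.Finite := Set.toFinite _

/-- the Erdős–Sós bound inside `K_{n,n}` -/
lemma edges_le (t : ℕ) (ht : 2 ≤ t) (T : SimpleGraph (Fin t)) (hT : T.IsTree) (n : ℕ)
    (G : SimpleGraph (Fin n ⊕ Fin n)) (hG : TFree T G) : G.edgeSet.ncard ≤ (t - 2) * n := by
  by_contra h
  push Not at h
  apply hG
  apply H223R3.Tree.es_ncard G t ht T hT
  rw [Nat.card_eq_fintype_card, Fintype.card_sum, Fintype.card_fin]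
  calc (t - 2) * (n + n) = 2 * ((t - 2) * n) := by ring
    _ < 2 * G.edgeSet.ncard := by omega

lemma exb_le (t : ℕ) (ht : 2 ≤ t) (T : SimpleGraph (Fin t)) (hT : T.IsTree) (n : ℕ) :
    exb t T n ≤ (t - 2) * n := by
  unfold exb
  rcases Set.eq_empty_or_nonempty {m | ∃ G : SimpleGraph (Fin n ⊕ Fin n),
    G ≤ completeBipartiteGraph (Fin n) (Fin n) ∧ TFree T G ∧ G.edgeSet.ncard = m} with h | h
  · rw [h]
    simp
  · apply csSup_le h
    rintro m ⟨G, _, hG, rfl⟩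
    exact edges_le t ht T hT n G hG

lemma exbc_le_exb (t : ℕ) (ht : 2 ≤ t) (T : SimpleGraph (Fin t)) (hT : T.IsTree) (n : ℕ) :
    exbc t T n ≤ exb t T n := by
  have hbdd : BddAbove {m | ∃ G : SimpleGraph (Fin n ⊕ Fin n),
      G ≤ completeBipartiteGraph (Fin n) (Fin n) ∧ TFree T G ∧ G.edgeSet.ncard = m} := by
    refine ⟨(t - 2) * n, ?_⟩
    rintro m ⟨G, _, hG, rfl⟩
    exact edges_le t ht T hT n G hG
  unfold exbc
  rcases Set.eq_empty_or_nonempty {m | ∃ G : SimpleGraph (Fin n ⊕ Fin n),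
    G ≤ completeBipartiteGraph (Fin n) (Fin n) ∧ G.Connected ∧ TFree T G ∧
      G.edgeSet.ncard = m} with h | h
  · rw [h]
    simp
  · apply csSup_le h
    rintro m ⟨G, h1, _, hG, rfl⟩
    exact le_csSup hbdd ⟨G, h1, hG, rfl⟩

lemma pointwise (t : ℕ) (ht : 2 ≤ t) (T : SimpleGraph (Fin t)) (hT : T.IsTree) (n : ℕ) :
    (exbc t T n : ℝ) / (((t : ℝ) - 2) * n) ≤ (exbc t T n : ℝ) / (exb t T n : ℝ) := by
  have h1 := exb_le t ht T hT n
  have h2 := exbc_le_exb t ht T hT n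
  have h1' : (exb t T n : ℝ) ≤ ((t : ℝ) - 2) * n := by
    have : (exb t T n : ℝ) ≤ (((t - 2) * n : ℕ) : ℝ) := by exact_mod_cast h1
    rwa [Nat.cast_mul, Nat.cast_sub ht, Nat.cast_ofNat] at this
  rcases Nat.eq_zero_or_pos (exb t T n) with h0 | h0
  · have : exbc t T n = 0 := by omega
    rw [this]
    simp
  · have h0' : (0 : ℝ) < exb t T n := by exact_mod_cast h0
    exact div_le_div_of_nonneg_left (by positivity) h0' h1'

lemma ratio_le_one (t : ℕ) (ht : 2 ≤ t) (T : SimpleGraph (Fin t)) (hT : T.IsTree) (n : ℕ) :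
    (exbc t T n : ℝ) / (exb t T n : ℝ) ≤ 1 := by
  apply div_le_one_of_le₀ _ (by positivity)
  exact_mod_cast exbc_le_exb t ht T hT n

lemma bdd_ratio (t : ℕ) (ht : 2 ≤ t) (T : SimpleGraph (Fin t)) (hT : T.IsTree) :
    IsBoundedUnder (· ≤ ·) atTop (fun n : ℕ => (exbc t T n : ℝ) / (exb t T n : ℝ)) :=
  isBoundedUnder_of ⟨1, fun n => ratio_le_one t ht T hT n⟩

lemma nonneg_bc (t : ℕ) (ht : 2 ≤ t) (T : SimpleGraph (Fin t)) (n : ℕ) :
    (0 : ℝ) ≤ (exbc t T n : ℝ) / (((t : ℝ) - 2) * n) := by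
  have : (0 : ℝ) ≤ (t : ℝ) - 2 := by
    have : (2 : ℝ) ≤ t := by exact_mod_cast ht
    linarith
  positivity

lemma bddBelow_bc (t : ℕ) (ht : 2 ≤ t) (T : SimpleGraph (Fin t)) :
    IsBoundedUnder (· ≥ ·) atTop (fun n : ℕ => (exbc t T n : ℝ) / (((t : ℝ) - 2) * n)) :=
  isBoundedUnder_of ⟨0, fun n => nonneg_bc t ht T n⟩

lemma bddBelow_ratio (t : ℕ) (T : SimpleGraph (Fin t)) :
    IsBoundedUnder (· ≥ ·) atTop (fun n : ℕ => (exbc t T n : ℝ) / (exb t T n : ℝ)) :=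
  isBoundedUnder_of ⟨0, fun n => by positivity⟩

lemma gbc_le (t : ℕ) (ht : 2 ≤ t) (T : SimpleGraph (Fin t)) (hT : T.IsTree) :
    gbc t T ≤ gratio t T := by
  unfold gbc gratio
  exact limsup_le_limsup (Eventually.of_forall fun n => pointwise t ht T hT n)
    (bddBelow_bc t ht T).isCoboundedUnder_le (bdd_ratio t ht T hT)

lemma gratio_le_one (t : ℕ) (ht : 2 ≤ t) (T : SimpleGraph (Fin t)) (hT : T.IsTree) :
    gratio t T ≤ 1 := by
  unfold gratio
  apply limsup_le_of_le (bddBelow_ratio t T).isCoboundedUnder_le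
  exact Eventually.of_forall fun n => ratio_le_one t ht T hT n

lemma gbc_nonneg (t : ℕ) (ht : 2 ≤ t) (T : SimpleGraph (Fin t)) (hT : T.IsTree) : 0 ≤ gbc t T := by
  unfold gbc
  apply le_limsup_of_le
  · exact isBoundedUnder_of ⟨1, fun n => (pointwise t ht T hT n).trans (ratio_le_one t ht T hT n)⟩
  · intro b hb
    obtain ⟨n, hn⟩ := hb.exists
    exact (nonneg_bc t ht T n).trans hn

lemma exists_tree (t : ℕ) (ht : 1 ≤ t) : ∃ T : SimpleGraph (Fin t), T.IsTree := by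
  have : Nonempty (Fin t) := ⟨⟨0, by omega⟩⟩
  obtain ⟨T, _, hT⟩ := (SimpleGraph.connected_top (V := Fin t)).exists_isTree_le
  exact ⟨T, hT⟩

lemma set_nonempty (γ : (t : ℕ) → SimpleGraph (Fin t) → ℝ) (k : ℕ) :
    {x | ∃ t : ℕ, k ≤ t ∧ ∃ T : SimpleGraph (Fin t), T.IsTree ∧ x = γ t T}.Nonempty := by
  obtain ⟨T, hT⟩ := exists_tree (k + 1) (by omega)
  exact ⟨γ (k + 1) T, k + 1, by omega, T, hT, rfl⟩

/-- the infimum is eventually monotone and bounded, so it converges -/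
lemma converges (γ : (t : ℕ) → SimpleGraph (Fin t) → ℝ)
    (h0 : ∀ (t : ℕ), 2 ≤ t → ∀ T : SimpleGraph (Fin t), T.IsTree → 0 ≤ γ t T)
    (h1 : ∀ (t : ℕ), 2 ≤ t → ∀ T : SimpleGraph (Fin t), T.IsTree → γ t T ≤ 1) :
    ∃ L : ℝ, Tendsto (infTrees γ) atTop (𝓝 L) := by
  have hmono : Monotone (fun k => infTrees γ (k + 2)) := by
    intro k l hkl
    apply le_csInf (set_nonempty γ (l + 2))
    rintro x ⟨t, ht, T, hT, rfl⟩
    apply csInf_le
    · refine ⟨0, ?_⟩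
      rintro y ⟨s, hs, U, hU, rfl⟩
      exact h0 s (by omega) U hU
    · exact ⟨t, by omega, T, hT, rfl⟩
  have hbdd : BddAbove (Set.range fun k => infTrees γ (k + 2)) := by
    refine ⟨1, ?_⟩
    rintro _ ⟨k, rfl⟩
    obtain ⟨x, t, ht, T, hT, rfl⟩ := set_nonempty γ (k + 2)
    refine le_trans (csInf_le ?_ ⟨t, ht, T, hT, rfl⟩) (h1 t (by omega) T hT)
    refine ⟨0, ?_⟩
    rintro y ⟨s, hs, U, hU, rfl⟩
    exact h0 s (by omega) U hU
  refine ⟨⨆ k, infTrees γ (k + 2), ?_⟩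
  exact (tendsto_add_atTop_iff_nat 2).1 (tendsto_atTop_ciSup hmono hbdd)

lemma inf_le (k : ℕ) (hk : 2 ≤ k) : infTrees gbc k ≤ infTrees gratio k := by
  apply le_csInf (set_nonempty gratio k)
  rintro x ⟨t, ht, T, hT, rfl⟩
  refine le_trans (csInf_le ?_ ⟨t, ht, T, hT, rfl⟩) (gbc_le t (by omega) T hT)
  refine ⟨0, ?_⟩
  rintro y ⟨s, hs, U, hU, rfl⟩
  exact gbc_nonneg s (by omega) U hU

/-- `γ_{b,c,T} ≤ γ_{b↔c,T}` for all trees `T` with at least two vertices; hence the limits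
`γ_{b,c}` and `γ_{b↔c}` (which exist) satisfy `γ_{b,c} ≤ γ_{b↔c}`. -/
theorem result :
    (∀ t : ℕ, 2 ≤ t → ∀ T : SimpleGraph (Fin t), T.IsTree → gbc t T ≤ gratio t T) ∧
    ∃ γbc γratio : ℝ, Tendsto (infTrees gbc) atTop (𝓝 γbc) ∧
      Tendsto (infTrees gratio) atTop (𝓝 γratio) ∧ γbc ≤ γratio := by
  refine ⟨fun t ht T hT => gbc_le t ht T hT, ?_⟩
  obtain ⟨L, hL⟩ := converges gbc (fun t ht T hT => gbc_nonneg t ht T hT)
    (fun t ht T hT => (gbc_le t ht T hT).trans (gratio_le_one t ht T hT))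
  obtain ⟨M, hM⟩ := converges gratio
    (fun t ht T hT => (gbc_nonneg t ht T hT).trans (gbc_le t ht T hT))
    (fun t ht T hT => gratio_le_one t ht T hT)
  refine ⟨L, M, hL, hM, ?_⟩
  exact le_of_tendsto_of_tendsto hL hM
    ((eventually_ge_atTop 2).mono fun k hk => inf_le k hk)

end Pool.Agent.Results.MP_95bdb0_co.RatioAtLeastConnected
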